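import Pool.Agent.H70.RW.T

/-!
# (PLN) the oracle `lev` of a stage
-/

set_option autoImplicit false

namespace Pool.Agent.H97.RW

open Pool.Agent.H70.RW Pool.Agent.H70.OQ Pool.Agent.H6.NB Pool.Agent.H78.XQ
open Pool.Agent.H70.RC (arrp)
open Pool.Agent.H70.RK (Lt)

variable {κ : ℕ → ℕ} {V : (i : ℕ) → Machine (κ i)} {D : Dat}

theorem star_eq (D : Dat) (s : List Bool) : star D s = str (.inr (.inl ⟨s, D.a s⟩)) := rfl

theorem star_inj (hSTR : Pool.Agent.H70.RW.T_STR) {D D' : Dat} {s s' : List Bool}
    (h : star D s = star D' s') : s = s' := hSTR.2.2.2.1 s s' (D.a s) (D'.a s') h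

theorem str_eq_star (hSTR : Pool.Agent.H70.RW.T_STR) {D : Dat} {s : List Bool}
    {p : Ps} (h : str p = star D s) : p = .inr (.inl ⟨s, D.a s⟩) := hSTR.1 h

theorem lt_star (hSTR : Pool.Agent.H70.RW.T_STR) (D : Dat) (s : List Bool) :
    s.length < (star D s).length := hSTR.2.2.1 s (D.a s)

open Classical in
theorem lev_succ_of (L : ℕ) (w : List Bool) (h : ∀ s : List Bool, s.length = L → w ≠ star D s) :
    lev V D (L + 1) w = lev V D L w := by
  have h1 : lev V D (L + 1) w = if h : ∃ s : List Bool, s.length = L ∧ w = star D s then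
      decide (ans V (lev V D L) h.choose) else lev V D L w := rfl
  rw [h1, dif_neg]
  rintro ⟨s, h2, h3⟩
  exact h s h2 h3

open Classical in
theorem lev_star (hSTR : Pool.Agent.H70.RW.T_STR) (s : List Bool) :
    lev V D (s.length + 1) (star D s) = decide (ans V (lev V D s.length) s) := by
  have h1 : ∃ s' : List Bool, s'.length = s.length ∧ star D s = star D s' := ⟨s, rfl, rfl⟩
  have h2 : lev V D (s.length + 1) (star D s) =
      if h : ∃ s' : List Bool, s'.length = s.length ∧ star D s = star D s' then
      decide (ans V (lev V D s.length) h.choose)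
      else lev V D s.length (star D s) := rfl
  rw [h2, dif_pos h1]
  have h3 : h1.choose = s := (star_inj hSTR h1.choose_spec.2).symm
  rw [h3]

theorem lev_of_le (hSTR : Pool.Agent.H70.RW.T_STR) (w : List Bool) (L : ℕ)
    (h : w.length ≤ L) : lev V D L w = orc V D w := by
  induction L, h using Nat.le_induction with
  | base => rfl
  | succ L hL ih =>
    rw [lev_succ_of, ih]
    intro s hs h1
    have h2 := lt_star hSTR D s
    rw [← h1] at h2
    omega

open Classical in
theorem lev_lt (hSTR : Pool.Agent.H70.RW.T_STR) (s : List Bool) (L : ℕ)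
    (h : s.length + 1 ≤ L) : lev V D L (star D s) = decide (ans V (lev V D s.length) s) := by
  induction L, h using Nat.le_induction with
  | base => exact lev_star hSTR s
  | succ L hL ih =>
    rw [lev_succ_of, ih]
    intro s' hs' h2
    rw [← star_inj hSTR h2] at hs'
    omega

theorem lev_not (w : List Bool) (L : ℕ) (h : ∀ s : List Bool, s.length < L → w ≠ star D s) :
    lev V D L w = base D w := by
  induction L with
  | zero => rfl
  | succ L ih =>
    rw [lev_succ_of L w fun s hs => h s (by omega), ih fun s hs => h s (by omega)]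

theorem base_congr {D D' : Dat} (w : List Bool) (h : ∀ p : Ps, str p = w → val D p = val D' p) :
    base D w = base D' w := by
  unfold base
  by_cases h1 : ∃ p : Ps, str p = w
  · rw [dif_pos h1, dif_pos h1]
    exact h _ h1.choose_spec
  · rw [dif_neg h1, dif_neg h1]

open Classical in
theorem dec_congr (hSTR : Pool.Agent.H70.RW.T_STR) (hANL : Pool.Agent.H70.RW.T_ANL)
    (hORC : Pool.Agent.H70.RW.T_ORC) {D D' : Dat} (m : ℕ) (hA : Agr (fun i => i < m) D D')
    (s : List Bool) (hs : s.length ≤ m) :
    decide (ans V (lev V D s.length) s) = decide (ans V (lev V D' s.length) s) := by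
  have h1 := hANL κ V (lev V D s.length) (lev V D' s.length) s fun w hw => by
    rw [lev_of_le hSTR w _ hw.le, lev_of_le hSTR w _ hw.le]
    exact (((hORC κ V D).2.2 D' m hA).2 w (by omega))
  simp only [h1]

section stage

variable {n N : ℕ}

theorem agr_lt (D : Dat) (X : (Fin n → Bool) → Bool) (a : Ad n N) (g : Ar n N)
    (P : Bl n N) : Agr (fun i => i < n) (ina n N D X a g P) D := by
  refine ⟨fun n' h => ?_, fun s h => ?_, fun s h => ?_, fun p h => ?_⟩
  · change Function.update D.X n X n' = D.X n'
    rw [Function.update_of_ne (by omega)]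
  · exact dif_neg fun h' => absurd h'.1 (not_le.2 h)
  · exact dif_neg fun h' => absurd h'.1 (not_le.2 h)
  · exact dif_neg fun h' => absurd h'.1 (not_le.2 h)

theorem agr_L (D : Dat) (X : (Fin n → Bool) → Bool) (Z : ℕ → Prop) (a a' : Ad n N)
    (g g' : Ar n N) (P P' : Bl n N) (h1 : ∀ s : Li n N, Z s.1.length → a s = a' s)
    (h2 : ∀ s : Li n N, Z s.1.length → g s = g' s)
    (h3 : ∀ p : Bi n N, Z p.1.1.length → P p = P' p) :
    Agr Z (ina n N D X a g P) (ina n N D X a' g' P') := by
  refine ⟨fun n' h => rfl, fun s h => ?_, fun s h => ?_, fun p h => ?_⟩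
  · change (if h : n ≤ s.length ∧ s.length ≤ N then a ⟨s, h⟩ else D.a s) =
      if h : n ≤ s.length ∧ s.length ≤ N then a' ⟨s, h⟩ else D.a s
    split_ifs with hc
    · exact h1 _ h
    · rfl
  · change (if h : n ≤ s.length ∧ s.length ≤ N then g ⟨s, h⟩ else D.h s) =
      if h : n ≤ s.length ∧ s.length ≤ N then g' ⟨s, h⟩ else D.h s
    split_ifs with hc
    · exact h2 _ h
    · rfl
  · change (if h : n ≤ p.1.length ∧ p.1.length ≤ N then P ⟨⟨p.1, h⟩, p.2⟩ else D.c p) =
      if h : n ≤ p.1.length ∧ p.1.length ≤ N then P' ⟨⟨p.1, h⟩, p.2⟩ else D.c p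
    split_ifs with hc
    · exact h3 ⟨⟨p.1, hc⟩, p.2⟩ h
    · rfl

theorem val_agr {D D' : Dat} {Z : ℕ → Prop} (hA : Agr Z D D') (p : Ps) (hp : Z (lvl p)) :
    val D p = val D' p := by
  obtain ⟨h1, h2, h3, h4⟩ := hA
  rcases p with x | x | x | x
  · exact congrFun (h1 x.1 hp) x.2
  · exact congrFun (h3 x.1 hp) x.2
  · have h5 := h4 x.1 hp
    change (D.c x.1).1 x.2.1 x.2.2 = (D'.c x.1).1 x.2.1 x.2.2
    rw [h5]
  · have h5 := h4 x.1 hp
    change (D.c x.1).2 x.2 = (D'.c x.1).2 x.2
    rw [h5]

/-- `val` does not depend on the addresses -/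
theorem val_a (D : Dat) (X : (Fin n → Bool) → Bool) (a a' : Ad n N) (g : Ar n N)
    (P : Bl n N) (p : Ps) : val (ina n N D X a g P) p = val (ina n N D X a' g P) p := by
  rcases p with x | x | x | x <;> rfl

end stage

theorem pf_PLN (hSTR : Pool.Agent.H70.RW.T_STR) (hBAS : Pool.Agent.H70.RW.T_BAS)
    (hANL : Pool.Agent.H70.RW.T_ANL) (hORC : Pool.Agent.H70.RW.T_ORC) :
    Pool.Agent.H70.RW.T_PLN := by
  classical
  intro κ V n N L D X a g P hnL hLN
  -- values at stars and elsewhere
  have dich : ∀ (Z : Dat) (L : ℕ) (w : List Bool),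
      (∃ s : List Bool, s.length < L ∧ w = star Z s) ∨ (∀ s : List Bool, s.length < L → w ≠ star Z s) := by
    intro Z L w
    by_cases h : ∃ s : List Bool, s.length < L ∧ w = star Z s
    · exact Or.inl h
    · exact Or.inr fun s hs h1 => h ⟨s, hs, h1⟩
  refine ⟨?_, ?_, ?_, ?_, ?_⟩
  · -- part 1
    intro w
    set Z := ina n N D X a g P with hZ
    have hA : Agr (fun i => i < n) Z D := agr_lt D X a g P
    rcases dich Z n w with ⟨s, hs, rfl⟩ | h
    · have h1 : star Z s = star D s := by rw [star_eq, star_eq, hA.2.1 s hs]
      have h2 : lbv V D X g P (star Z s) = orc V D (star Z s) := by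
        unfold lbv
        rw [if_pos]
        exact ⟨.inr (.inl ⟨s, Z.a s⟩), rfl, hs⟩
      rw [h2, lev_lt hSTR s n hs, h1]
      have h3 : orc V D (star D s) = lev V D (star D s).length (star D s) := rfl
      rw [h3, lev_lt hSTR s _ (lt_star hSTR D s)]
      exact dec_congr hSTR hANL hORC n hA s hs.le
    · rw [lev_not w n h]
      by_cases hp : ∃ p : Ps, str p = w ∧ lvl p < n
      · obtain ⟨p, rfl, hpn⟩ := hp
        have h2 : lbv V D X g P (str p) = orc V D (str p) := by
          unfold lbv
          rw [if_pos ⟨p, rfl, hpn⟩]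
        rw [h2]
        have h3 : ∀ s, str p ≠ star D s := by
          intro s hs
          have h4 := str_eq_star hSTR hs
          have h5 : s.length < n := by rw [h4] at hpn; exact hpn
          apply h s h5
          rw [hs, star_eq, star_eq, hA.2.1 s h5]
        rw [(hORC κ V D).1 _ h3, hBAS.1, hBAS.1]
        exact val_agr hA p hpn
      · unfold lbv
        rw [if_neg hp]
        exact base_congr w fun p _ => val_a D X _ _ g P p
  · -- part 2
    intro w hw
    exact lev_of_le hSTR w (N + 1) (by omega)
  · -- part 3
    intro a' g' P' h1 h2 h3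
    have hA := agr_L D X (fun i => i < L) a a' g g' P P' h1 h2 h3
    refine ⟨fun w hw => ?_, fun hg hP w => ?_⟩
    · rw [lev_of_le hSTR w L hw, lev_of_le hSTR w L hw]
      exact ((hORC κ V _).2.2 _ L hA).2 w hw
    · subst hg hP
      have hst : ∀ s : List Bool, s.length < L → star (ina n N D X a g P) s =
          star (ina n N D X a' g P) s := by
        intro s hs; rw [star_eq, star_eq, hA.2.1 s hs]
      rcases dich (ina n N D X a g P) L w with ⟨s, hs, rfl⟩ | h
      · rw [lev_lt hSTR s L hs, hst s hs, lev_lt hSTR s L hs]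
        exact dec_congr hSTR hANL hORC L hA s hs.le
      · rw [lev_not w L h, lev_not w L fun s hs => by rw [← hst s hs]; exact h s hs]
        exact base_congr w fun p _ => val_a D X _ _ g P p
  · -- part 4
    intro b hb w
    set g'' : Ar n N := fun s => if s.1.length = L then Function.update (g s) (a s) (b s)
      else g s with hg''
    have hA : Agr (fun i => i < L) (ina n N D X a g P) (ina n N D X a g'' P) := by
      refine agr_L D X (fun i => i < L) a a g g'' P P (fun _ _ => rfl) ?_ (fun _ _ => rfl)
      intro s hs
      have : ¬ s.1.length = L := by have : s.1.length < L := hs; omega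
      simp only [hg'', if_neg this]
    have hst : ∀ s : List Bool, star (ina n N D X a g P) s = star (ina n N D X a g'' P) s :=
      fun s => rfl
    rcases dich (ina n N D X a g P) (L + 1) w with ⟨s, hs, rfl⟩ | h
    · rcases Nat.lt_or_ge s.length L with h1 | h1
      · rw [lev_lt hSTR s (L + 1) hs, hst s, lev_lt hSTR s L h1]
        exact dec_congr hSTR hANL hORC L hA s h1.le
      · have h2 : s.length = L := by omega
        have hli : n ≤ s.length ∧ s.length ≤ N := by omega
        have h3 := hb ⟨s, hli⟩ h2
        rw [lev_lt hSTR s (L + 1) hs, h2, hst s, lev_not (star _ s) L ?_]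
        · rw [star_eq, hBAS.1]
          have h4 : val (ina n N D X a g'' P) (.inr (.inl ⟨s, (ina n N D X a g'' P).a s⟩)) =
              (ina n N D X a g'' P).h s ((ina n N D X a g'' P).a s) := rfl
          have h5 : (ina n N D X a g'' P).h s = g'' ⟨s, hli⟩ := dif_pos hli
          have h6 : (ina n N D X a g'' P).a s = a ⟨s, hli⟩ := dif_pos hli
          rw [h4, h5, h6]
          simp only [hg'', h2, if_true, Function.update_self]
          rw [Bool.eq_iff_iff, decide_eq_true_iff]
          exact h3.symm
        · intro s' hs' h4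
          rw [← star_inj hSTR h4] at hs'
          omega
    · rw [lev_not w (L + 1) h, lev_not w L fun s hs => by rw [← hst s]; exact h s (by omega)]
      refine base_congr w fun p hp => ?_
      rcases p with x | x | x | x
      · rfl
      · obtain ⟨s, c⟩ := x
        change (if h : n ≤ s.length ∧ s.length ≤ N then g ⟨s, h⟩ else D.h s) c =
          (if h : n ≤ s.length ∧ s.length ≤ N then g'' ⟨s, h⟩ else D.h s) c
        by_cases hc : n ≤ s.length ∧ s.length ≤ N
        · rw [dif_pos hc, dif_pos hc]
          simp only [hg'']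
          by_cases hL : s.length = L
          · rw [if_pos hL, Function.update_of_ne]
            intro h5
            apply h s (by omega)
            rw [← hp, star_eq]
            have h6 : (ina n N D X a g P).a s = a ⟨s, hc⟩ := dif_pos hc
            rw [h6, ← h5]
          · rw [if_neg hL]
        · rw [dif_neg hc, dif_neg hc]
      · rfl
      · rfl
  · -- part 5
    intro p hp
    have key : ∀ (Y : Type) (Pf : (Y → Bool) → Bl n N),
        (∀ y y' (p' : Bi n N), p' ≠ p → Pf y p' = Pf y' p') →
        (∀ q : Ps, (∃ b, ∀ y, val (ina n N D X a g (Pf y)) q = b) ∨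
          ∃ v, ∀ y : Y → Bool, val (ina n N D X a g (Pf y)) q = y v) →
        Lt fun y => lev V (ina n N D X a g (Pf y)) (L + 1) := by
      intro Y Pf h1 h2 w
      have y₀ : Y → Bool := fun _ => false
      have hA : ∀ y, Agr (fun i => i < L) (ina n N D X a g (Pf y)) (ina n N D X a g (Pf y₀)) := by
        intro y
        refine agr_L D X (fun i => i < L) a a g g (Pf y) (Pf y₀) (fun _ _ => rfl) (fun _ _ => rfl) ?_
        intro p' hp'
        refine h1 y y₀ p' ?_
        rintro rfl
        have : p'.1.1.length < L := hp'
        omega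
      rcases dich (ina n N D X a g (Pf y₀)) (L + 1) w with ⟨s, hs, rfl⟩ | h
      · left
        refine ⟨decide (ans V (lev V (ina n N D X a g (Pf y₀)) s.length) s), fun y => ?_⟩
        have h3 : star (ina n N D X a g (Pf y₀)) s = star (ina n N D X a g (Pf y)) s := rfl
        change lev V (ina n N D X a g (Pf y)) (L + 1) (star (ina n N D X a g (Pf y₀)) s) = _
        rw [h3, lev_lt hSTR s (L + 1) hs]
        exact dec_congr hSTR hANL hORC L (hA y) s (by omega)
      · have h3 : ∀ y, lev V (ina n N D X a g (Pf y)) (L + 1) w =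
            base (ina n N D X a g (Pf y)) w := fun y => lev_not w (L + 1) h
        simp only [h3]
        by_cases hq : ∃ q : Ps, str q = w
        · obtain ⟨q, rfl⟩ := hq
          simp only [hBAS.1]
          exact h2 q
        · left
          exact ⟨false, fun y => hBAS.2 _ w fun q hq' => hq ⟨q, hq'.symm⟩⟩
    have hcpos : ∀ (P' : Bl n N) (x : Bx) (h : n ≤ x.1.length ∧ x.1.length ≤ N),
        (ina n N D X a g P').c x = P' ⟨⟨x.1, h⟩, x.2⟩ := fun P' x h => dif_pos h
    have hcneg : ∀ (P' : Bl n N) (x : Bx) (h : ¬ (n ≤ x.1.length ∧ x.1.length ≤ N)),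
        (ina n N D X a g P').c x = D.c x := fun P' x h => dif_neg h
    refine ⟨fun u => ?_, ?_⟩
    · refine key (VV (qs (hl p))) (fun c => Function.update P p (Function.update (P p).1 u c, (P p).2))
        ?_ ?_
      · intro y y' p' hp'
        simp only [Function.update_of_ne hp']
      · intro q
        rcases q with x | x | x | x
        · exact Or.inl ⟨_, fun y => rfl⟩
        · exact Or.inl ⟨_, fun y => rfl⟩
        · obtain ⟨x, u', v⟩ := x
          by_cases h : n ≤ x.1.length ∧ x.1.length ≤ N
          · by_cases hpx : (⟨⟨x.1, h⟩, x.2⟩ : Bi n N) = p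
            · subst hpx
              by_cases huu : u' = u
              · right
                refine ⟨v, fun y => ?_⟩
                change ((ina n N D X a g _).c x).1 u' v = _
                rw [hcpos _ x h, Function.update_self]
                simp only [huu, Function.update_self]
              · left
                refine ⟨(P ⟨⟨x.1, h⟩, x.2⟩).1 u' v, fun y => ?_⟩
                change ((ina n N D X a g _).c x).1 u' v = _
                rw [hcpos _ x h, Function.update_self]
                exact congrFun (Function.update_of_ne huu _ _) v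
            · left
              refine ⟨(P ⟨⟨x.1, h⟩, x.2⟩).1 u' v, fun y => ?_⟩
              change ((ina n N D X a g _).c x).1 u' v = _
              rw [hcpos _ x h, Function.update_of_ne hpx]
          · left
            refine ⟨(D.c x).1 u' v, fun y => ?_⟩
            change ((ina n N D X a g _).c x).1 u' v = _
            rw [hcneg _ x h]
        · obtain ⟨x, v⟩ := x
          left
          by_cases h : n ≤ x.1.length ∧ x.1.length ≤ N
          · by_cases hpx : (⟨⟨x.1, h⟩, x.2⟩ : Bi n N) = p
            · subst hpx
              refine ⟨(P ⟨⟨x.1, h⟩, x.2⟩).2 v, fun y => ?_⟩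
              change ((ina n N D X a g _).c x).2 v = _
              rw [hcpos _ x h, Function.update_self]
            · refine ⟨(P ⟨⟨x.1, h⟩, x.2⟩).2 v, fun y => ?_⟩
              change ((ina n N D X a g _).c x).2 v = _
              rw [hcpos _ x h, Function.update_of_ne hpx]
          · refine ⟨(D.c x).2 v, fun y => ?_⟩
            change ((ina n N D X a g _).c x).2 v = _
            rw [hcneg _ x h]
    · refine key (Fin (wln (hl p)) → Bool) (fun c => Function.update P p ((P p).1, c)) ?_ ?_
      · intro y y' p' hp'
        simp only [Function.update_of_ne hp']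
      · intro q
        rcases q with x | x | x | x
        · exact Or.inl ⟨_, fun y => rfl⟩
        · exact Or.inl ⟨_, fun y => rfl⟩
        · obtain ⟨x, u', v⟩ := x
          left
          by_cases h : n ≤ x.1.length ∧ x.1.length ≤ N
          · by_cases hpx : (⟨⟨x.1, h⟩, x.2⟩ : Bi n N) = p
            · subst hpx
              refine ⟨(P ⟨⟨x.1, h⟩, x.2⟩).1 u' v, fun y => ?_⟩
              change ((ina n N D X a g _).c x).1 u' v = _
              rw [hcpos _ x h, Function.update_self]
            · refine ⟨(P ⟨⟨x.1, h⟩, x.2⟩).1 u' v, fun y => ?_⟩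
              change ((ina n N D X a g _).c x).1 u' v = _
              rw [hcpos _ x h, Function.update_of_ne hpx]
          · refine ⟨(D.c x).1 u' v, fun y => ?_⟩
            change ((ina n N D X a g _).c x).1 u' v = _
            rw [hcneg _ x h]
        · obtain ⟨x, v⟩ := x
          by_cases h : n ≤ x.1.length ∧ x.1.length ≤ N
          · by_cases hpx : (⟨⟨x.1, h⟩, x.2⟩ : Bi n N) = p
            · subst hpx
              right
              refine ⟨v, fun y => ?_⟩
              change ((ina n N D X a g _).c x).2 v = _
              rw [hcpos _ x h, Function.update_self]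
            · left
              refine ⟨(P ⟨⟨x.1, h⟩, x.2⟩).2 v, fun y => ?_⟩
              change ((ina n N D X a g _).c x).2 v = _
              rw [hcpos _ x h, Function.update_of_ne hpx]
          · left
            refine ⟨(D.c x).2 v, fun y => ?_⟩
            change ((ina n N D X a g _).c x).2 v = _
            rw [hcneg _ x h]

end Pool.Agent.H97.RW
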