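import Pool.Agent.H70.RW.T
import Pool.Agent.H21.RK.STB

/-!
# The answers of the instances of one length can be replaced by junk (row STB of nbw_modules)
-/

set_option autoImplicit false

namespace Pool.Agent.H97.RW

open Finset Filter Pool.Agent.H6.NB Pool.Agent.H70.OQ Pool.Agent.H78.XQ Pool.Agent.H70.RW
open Pool.Agent.H21.RK (us many_steps)

open Classical in
/-- STB: the answers of the instances of length `L` can be replaced by junk. -/
theorem pf_STB (hTVX : Pool.Agent.H70.RK.T_TVX) (hPLN : Pool.Agent.H70.RW.T_PLN)
    (hANL : Pool.Agent.H70.RW.T_ANL) : Pool.Agent.H70.RW.T_STB := by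
  intro κ V n N L D X P Φ wt hnL hLN hΦ hw hwa
  have hne : ∀ (s s' : Li n N), s.1.length = L → s'.1.length < L → s' ≠ s := by
    intro s s' h1 h2 h3
    rw [h3] at h2
    omega
  have hcard : ∀ s : Li n N, s.1.length = L → (16 : ℝ) ^ L ≤ (Fintype.card (Aa s.1) : ℝ) := by
    intro s hs
    have h1 : Fintype.card (Aa s.1) = (2 ^ (4 * s.1.length)) ^ s.1.length := by
      simp [Aa, Ck]
    rw [h1, hs]
    push_cast
    have h2 : (16 : ℝ) ^ L = 2 ^ (4 * L) := by
      rw [pow_mul]; norm_num
    rw [h2]
    rcases Nat.eq_zero_or_pos L with h0 | h0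
    · rw [h0]
      norm_num
    · exact le_self_pow₀ (one_le_pow₀ (by norm_num)) (by omega)
  have key := many_steps hTVX (A := fun s : Li n N => Aa s.1)
    (fun a g => Φ (lev V (ina n N D X a g P) L))
    (fun a g s => if s.1.length = L then decide (ans V (lev V (ina n N D X a g P) L) s.1) else false)
    wt ((1 / 4 : ℝ) ^ L) (fun a g => hΦ _) hw (univ.filter fun s : Li n N => s.1.length = L)
    ?_ ?_ ?_ ?_ ?_
  · have e1 : (∑ s : Li n N, if s.1.length = L then (1 / 4 : ℝ) ^ L else 0) =
        ((univ.filter fun s : Li n N => s.1.length = L).card : ℝ) * (1 / 4 : ℝ) ^ L := by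
      rw [← Finset.sum_filter, Finset.sum_const, nsmul_eq_mul]
    rw [e1]
    refine key.trans (le_of_eq ?_)
    refine Finset.sum_congr rfl fun a _ => Finset.sum_congr rfl fun g _ => ?_
    have h4 := (hPLN κ V n N L D X a g P hnL hLN).2.2.2.1
      (fun s => if s.1.length = L then decide (ans V (lev V (ina n N D X a g P) L) s.1) else false)
      (fun s hs => by simp [hs])
    have e2 : lev V (ina n N D X a g P) (L + 1) = lev V (ina n N D X a
        (us (univ.filter fun s : Li n N => s.1.length = L) a g (fun s => if s.1.length = L then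
          decide (ans V (lev V (ina n N D X a g P) L) s.1) else false)) P) L := by
      funext w
      rw [h4 w]
      congr 2
      funext s
      unfold us
      by_cases hs : s.1.length = L
      · simp [hs]
      · simp [hs]
    rw [e2]
  · intro s hs a x g
    rw [Finset.mem_filter] at hs
    show Φ _ = Φ _
    congr 1
    funext w
    exact (((hPLN κ V n N L D X (Function.update a s x) g P hnL hLN).2.2.1 a g P
      (fun s' h' => Function.update_of_ne (hne s s' hs.2 h') _ _) (fun s' _ => rfl)
      (fun p _ => rfl)).2 rfl rfl w)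
  · intro s hs a x g y
    rw [Finset.mem_filter] at hs
    funext s'
    show (if s'.1.length = L then _ else _) = (if s'.1.length = L then _ else _)
    by_cases h : s'.1.length = L
    · rw [if_pos h, if_pos h]
      have : ans V (lev V (ina n N D X (Function.update a s x) (Function.update g s y) P) L) s'.1 ↔
          ans V (lev V (ina n N D X a g P) L) s'.1 := by
        refine hANL κ V _ _ s'.1 fun w hw' => ?_
        exact (((hPLN κ V n N L D X (Function.update a s x) (Function.update g s y) P hnL
          hLN).2.2.1 a g P (fun s' h' => Function.update_of_ne (hne s s' hs.2 h') _ _)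
          (fun s' h' => Function.update_of_ne (hne s s' hs.2 h') _ _)
          (fun p _ => rfl)).1 w (by omega))
      simp only [this]
    · rw [if_neg h, if_neg h]
  · intro s hs a x
    rw [Finset.mem_filter] at hs
    exact hwa _ _ fun s' h' => Function.update_of_ne (fun h => h' (by rw [h]; exact hs.2)) _ _
  · intro s hs
    rw [Finset.mem_filter] at hs
    exact Fintype.card_pos
  · intro s hs
    rw [Finset.mem_filter] at hs
    have h1 := hcard s hs.2
    have h2 : (4 : ℝ) ^ L ≤ √(Fintype.card (Aa s.1) : ℝ) := by
      apply Real.le_sqrt_of_sq_le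
      refine le_trans (le_of_eq ?_) h1
      rw [← pow_mul, mul_comm, pow_mul]
      norm_num
    have h3 : (1 / 4 : ℝ) ^ L * 4 ^ L = 1 := by
      rw [← mul_pow]; norm_num
    calc (1 : ℝ) = (1 / 4 : ℝ) ^ L * 4 ^ L := h3.symm
      _ ≤ _ := mul_le_mul_of_nonneg_left h2 (by positivity)

end Pool.Agent.H97.RW
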